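import Mathlib

/-!
# Module EXI of project BZ, part A: Mellin transforms divided by Gamma are entire

If `G` is holomorphic and exponentially decreasing in a neighbourhood of `[0, ∞)`, then
`mellin G s / Γ(s)` extends to an entire function.
-/

set_option autoImplicit false

open Filter Topology Asymptotics Set MeasureTheory

namespace Pool.Agent.L0h68.BZ

/-- holomorphic and exponentially decreasing near `[0, ∞)` -/
structure Good (G : ℂ → ℂ) (b C ρ : ℝ) : Prop where
  hb : 0 < b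
  hρ : 0 < ρ
  hC : 0 ≤ C
  diff : ∀ z : ℂ, -ρ ≤ z.re → |z.im| ≤ ρ → DifferentiableAt ℂ G z
  bnd : ∀ z : ℂ, -ρ ≤ z.re → |z.im| ≤ ρ → ‖G z‖ ≤ C * Real.exp (-b * z.re)

/-- the derivatives on the real line -/
noncomputable def dv (G : ℂ → ℂ) (n : ℕ) (y : ℝ) : ℂ := iteratedDeriv n G (y : ℂ)

section good

variable {G : ℂ → ℂ} {b C ρ : ℝ}

theorem mem_strip {y : ℝ} (hy : 0 ≤ y) {z : ℂ} (hz : z ∈ Metric.closedBall (y : ℂ) ρ) :
    -ρ ≤ z.re ∧ |z.im| ≤ ρ ∧ y - ρ ≤ z.re := by
  rw [Metric.mem_closedBall, dist_eq_norm] at hz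
  have h1 := (Complex.abs_re_le_norm (z - y)).trans hz
  have h2 := (Complex.abs_im_le_norm (z - y)).trans hz
  rw [Complex.sub_re, Complex.ofReal_re] at h1
  rw [Complex.sub_im, Complex.ofReal_im, sub_zero] at h2
  rw [abs_le] at h1
  exact ⟨by linarith, h2, by linarith⟩

theorem Good.analytic (h : Good G b C ρ) {y : ℝ} (hy : 0 ≤ y) : AnalyticAt ℂ G (y : ℂ) := by
  have h1 : DifferentiableOn ℂ G (Metric.closedBall (y : ℂ) ρ) := fun z hz =>
    (h.diff z (mem_strip hy hz).1 (mem_strip hy hz).2.1).differentiableWithinAt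
  exact h1.analyticAt (Metric.closedBall_mem_nhds _ h.hρ)

theorem Good.hasDerivAt (h : Good G b C ρ) (n : ℕ) {y : ℝ} (hy : 0 ≤ y) :
    HasDerivAt (dv G n) (dv G (n + 1) y) y := by
  have h1 : DifferentiableAt ℂ (iteratedDeriv n G) (y : ℂ) := by
    rw [iteratedDeriv_eq_iterate]
    exact ((h.analytic hy).iterated_deriv n).differentiableAt
  have h2 := h1.hasDerivAt
  rw [← iteratedDeriv_succ] at h2
  exact h2.comp_ofReal

theorem Good.bound (h : Good G b C ρ) (n : ℕ) {y : ℝ} (hy : 0 ≤ y) :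
    ‖dv G n y‖ ≤ n.factorial * (C * Real.exp (b * ρ)) / ρ ^ n * Real.exp (-b * y) := by
  have h1 : DiffContOnCl ℂ G (Metric.ball (y : ℂ) ρ) := by
    apply DifferentiableOn.diffContOnCl
    intro z hz
    have hz' := Metric.closure_ball_subset_closedBall hz
    exact (h.diff z (mem_strip hy hz').1 (mem_strip hy hz').2.1).differentiableWithinAt
  have h2 := Complex.norm_iteratedDeriv_le_of_forall_mem_sphere_norm_le n h.hρ h1
    (C := C * Real.exp (b * ρ) * Real.exp (-b * y)) (fun z hz => by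
      have hz' := mem_strip hy (Metric.sphere_subset_closedBall hz)
      refine (h.bnd z hz'.1 hz'.2.1).trans ?_
      rw [mul_assoc, ← Real.exp_add]
      refine mul_le_mul_of_nonneg_left (Real.exp_le_exp.2 ?_) h.hC
      nlinarith [h.hb, hz'.2.2])
  refine h2.trans (le_of_eq ?_)
  ring

theorem Good.cont (h : Good G b C ρ) (n : ℕ) : ContinuousOn (dv G n) (Ioi 0) := fun _ hy =>
  (h.hasDerivAt n (le_of_lt hy)).continuousAt.continuousWithinAt

theorem Good.loc (h : Good G b C ρ) (n : ℕ) : LocallyIntegrableOn (dv G n) (Ioi 0) :=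
  (h.cont n).locallyIntegrableOn measurableSet_Ioi

theorem Good.top (h : Good G b C ρ) (n : ℕ) :
    dv G n =O[atTop] fun t : ℝ => Real.exp (-b * t) := by
  refine IsBigO.of_bound (n.factorial * (C * Real.exp (b * ρ)) / ρ ^ n) ?_
  filter_upwards [eventually_ge_atTop (0 : ℝ)] with y hy
  rw [Real.norm_of_nonneg (Real.exp_pos _).le]
  exact h.bound n hy

theorem Good.K_nonneg (h : Good G b C ρ) (n : ℕ) :
    0 ≤ n.factorial * (C * Real.exp (b * ρ)) / ρ ^ n := by
  have h1 := h.hC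
  have h2 := h.hρ
  positivity

theorem Good.bound' (h : Good G b C ρ) (n : ℕ) {y : ℝ} (hy : 0 ≤ y) :
    ‖dv G n y‖ ≤ n.factorial * (C * Real.exp (b * ρ)) / ρ ^ n := by
  refine (h.bound n hy).trans (mul_le_of_le_one_right (h.K_nonneg n) ?_)
  rw [Real.exp_le_one_iff]
  nlinarith [h.hb]

theorem Good.bot (h : Good G b C ρ) (n : ℕ) :
    dv G n =O[𝓝[>] 0] fun t : ℝ => t ^ (-0 : ℝ) := by
  refine IsBigO.of_bound (n.factorial * (C * Real.exp (b * ρ)) / ρ ^ n) ?_
  filter_upwards [self_mem_nhdsWithin] with y hy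
  rw [neg_zero, Real.rpow_zero, norm_one, mul_one]
  exact h.bound' n (le_of_lt hy)

theorem Good.conv (h : Good G b C ρ) (n : ℕ) {s : ℂ} (hs : 0 < s.re) :
    MellinConvergent (dv G n) s :=
  mellinConvergent_of_isBigO_rpow_exp h.hb (h.loc n) (h.top n) (h.bot n) hs

theorem Good.diffAt (h : Good G b C ρ) (n : ℕ) {s : ℂ} (hs : 0 < s.re) :
    DifferentiableAt ℂ (mellin (dv G n)) s :=
  mellin_differentiableAt_of_isBigO_rpow_exp h.hb (h.loc n) (h.top n) (h.bot n) hs

theorem Good.parts (h : Good G b C ρ) (n : ℕ) {s : ℂ} (hs : 0 < s.re) :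
    mellin (dv G (n + 1)) (s + 1) = -(s * mellin (dv G n) s) := by
  have hs0 : s ≠ 0 := by
    rintro rfl
    simp at hs
  have hn : ∀ y : ℝ, 0 < y → ‖(y : ℂ) ^ s‖ = y ^ s.re := fun y hy =>
    Complex.norm_cpow_eq_rpow_re_of_pos hy s
  have h1 := integral_Ioi_mul_deriv_eq_deriv_mul (a := (0 : ℝ)) (u := fun y : ℝ => (y : ℂ) ^ s)
    (u' := fun y : ℝ => s * (y : ℂ) ^ (s - 1)) (v := dv G n) (v' := dv G (n + 1)) (a' := 0)
    (b' := 0) ?_ (fun y hy => h.hasDerivAt n (le_of_lt hy)) ?_ ?_ ?_ ?_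
  · rw [mellin, mellin]
    simp only [smul_eq_mul, add_sub_cancel_right]
    rw [h1, ← integral_const_mul]
    simp only [mul_assoc, zero_sub, sub_zero]
  · intro y hy
    exact hasDerivAt_ofReal_cpow_const (ne_of_gt hy) hs0
  · have := h.conv (n + 1) (s := s + 1) (by simp; linarith)
    rw [MellinConvergent] at this
    simpa only [add_sub_cancel_right, smul_eq_mul, Pi.mul_def] using this
  · have h5 : IntegrableOn (fun y : ℝ => s * ((y : ℂ) ^ (s - 1) * dv G n y)) (Ioi 0) :=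
      (h.conv n hs).const_mul s
    simpa only [mul_assoc, Pi.mul_def] using h5
  · have h2 : Tendsto (fun y : ℝ => y ^ s.re *
        (n.factorial * (C * Real.exp (b * ρ)) / ρ ^ n)) (𝓝[>] 0) (𝓝 0) := by
      have h3 := (Real.continuousAt_rpow_const 0 s.re (Or.inr hs.le)).tendsto
      rw [Real.zero_rpow hs.ne'] at h3
      have h4 := (h3.mono_left (nhdsWithin_le_nhds (s := Ioi 0))).mul_const
        (n.factorial * (C * Real.exp (b * ρ)) / ρ ^ n)
      rwa [zero_mul] at h4
    refine squeeze_zero_norm' ?_ h2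
    filter_upwards [self_mem_nhdsWithin] with y hy
    rw [Pi.mul_apply, norm_mul, hn y hy]
    exact mul_le_mul_of_nonneg_left (h.bound' n (le_of_lt hy)) (Real.rpow_nonneg (le_of_lt hy) _)
  · have h2 : Tendsto (fun y : ℝ => (n.factorial * (C * Real.exp (b * ρ)) / ρ ^ n) *
        (y ^ s.re * Real.exp (-b * y))) atTop (𝓝 0) := by
      have h3 := (tendsto_rpow_mul_exp_neg_mul_atTop_nhds_zero s.re b h.hb).const_mul
        (n.factorial * (C * Real.exp (b * ρ)) / ρ ^ n)
      rwa [mul_zero] at h3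
    refine squeeze_zero_norm' ?_ h2
    filter_upwards [eventually_gt_atTop (0 : ℝ)] with y hy
    rw [Pi.mul_apply, norm_mul, hn y hy]
    calc y ^ s.re * ‖dv G n y‖ ≤ y ^ s.re *
        (n.factorial * (C * Real.exp (b * ρ)) / ρ ^ n * Real.exp (-b * y)) :=
          mul_le_mul_of_nonneg_left (h.bound n hy.le) (Real.rpow_nonneg hy.le _)
      _ = _ := by ring

/-- the function divided by Gamma, on `re s > -N` -/
noncomputable def lN (G : ℂ → ℂ) (N : ℕ) (s : ℂ) : ℂ :=
  (-1) ^ N * mellin (dv G N) (s + N) * (Complex.Gamma (s + N))⁻¹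

theorem Good.lN_succ (h : Good G b C ρ) (N : ℕ) {s : ℂ} (hs : -(N : ℝ) < s.re) :
    lN G (N + 1) s = lN G N s := by
  have h1 : 0 < (s + N).re := by simp; linarith
  have h0 : s + N ≠ 0 := by
    intro h0
    rw [h0] at h1
    simp at h1
  rw [lN, lN, Nat.cast_succ, ← add_assoc, h.parts N h1, Complex.Gamma_add_one _ h0]
  have h2 := Complex.Gamma_ne_zero_of_re_pos h1
  field_simp
  ring

theorem Good.lN_eq (h : Good G b C ρ) (N k : ℕ) {s : ℂ} (hs : -(N : ℝ) < s.re) :
    lN G (N + k) s = lN G N s := by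
  induction k with
  | zero => rfl
  | succ k ih =>
    rw [← ih, ← add_assoc]
    refine h.lN_succ (N + k) ?_
    push_cast
    have : (0 : ℝ) ≤ k := Nat.cast_nonneg k
    linarith

/-- the entire function -/
noncomputable def lam' (G : ℂ → ℂ) (s : ℂ) : ℂ := lN G (⌊-s.re⌋₊ + 1) s

theorem Good.lam_eq (h : Good G b C ρ) (N : ℕ) {s : ℂ} (hs : -(N : ℝ) < s.re) :
    lam' G s = lN G N s := by
  have h1 : -((⌊-s.re⌋₊ + 1 : ℕ) : ℝ) < s.re := by
    have := Nat.lt_floor_add_one (-s.re)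
    push_cast
    linarith
  rw [lam']
  rcases le_total N (⌊-s.re⌋₊ + 1) with h2 | h2
  · obtain ⟨k, hk⟩ := Nat.exists_eq_add_of_le h2
    rw [hk, h.lN_eq N k hs]
  · obtain ⟨k, hk⟩ := Nat.exists_eq_add_of_le h2
    have := h.lN_eq _ k h1
    rw [← hk] at this
    exact this.symm

theorem Good.entire (h : Good G b C ρ) : Differentiable ℂ (lam' G) := by
  intro s
  obtain ⟨N, hN⟩ := exists_nat_gt (-s.re)
  have h1 : {w : ℂ | -(N : ℝ) < w.re} ∈ 𝓝 s :=
    (isOpen_lt continuous_const Complex.continuous_re).mem_nhds (by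
      show -(N : ℝ) < s.re
      linarith)
  have h2 : lam' G =ᶠ[𝓝 s] lN G N := by
    filter_upwards [h1] with w hw
    exact h.lam_eq N hw
  refine DifferentiableAt.congr_of_eventuallyEq ?_ h2
  have h3 : 0 < (s + N).re := by simp; linarith
  have h4 : DifferentiableAt ℂ (fun s : ℂ => s + N) s := by fun_prop
  have h5 := DifferentiableAt.comp (g := mellin (dv G N)) s (h.diffAt N h3) h4
  have h6 := DifferentiableAt.comp (g := fun s : ℂ => (Complex.Gamma s)⁻¹) s
    (Complex.differentiable_one_div_Gamma _) h4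
  exact ((differentiableAt_const _).mul h5).mul h6

theorem Good.lam_zero (h : Good G b C ρ) {s : ℂ} (hs : 0 < s.re) :
    lam' G s = mellin (fun y : ℝ => G y) s * (Complex.Gamma s)⁻¹ := by
  rw [h.lam_eq 0 (by simpa using hs), lN, pow_zero, one_mul, Nat.cast_zero, add_zero]
  congr 2

end good

end Pool.Agent.L0h68.BZ
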