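import Pool.Agent.L0h52.BZ.Stm
import Pool.Agent.L0h68.BZ.ExiA

/-!
# Module EXI of project BZ: the meromorphic continuation of the Barnes double zeta function
-/

set_option autoImplicit false

open Filter Topology Asymptotics Set MeasureTheory

namespace Pool.Agent.L0h68.BZ

open Pool.Agent.L0h52.BZ

/-- `(1 - e^(-z)) / z` -/
noncomputable def ph (z : ℂ) : ℂ := dslope (fun w => 1 - Complex.exp (-w)) 0 z

theorem ph_diff : Differentiable ℂ ph := by
  have h : Differentiable ℂ (fun w : ℂ => 1 - Complex.exp (-w)) := by fun_prop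
  have h1 := (Complex.differentiableOn_dslope (f := fun w : ℂ => 1 - Complex.exp (-w)) (c := 0)
    (s := univ) univ_mem).2 h.differentiableOn
  exact differentiableOn_univ.1 h1

theorem ph_mul (z : ℂ) : z * ph z = 1 - Complex.exp (-z) := by
  have := sub_smul_dslope (fun w : ℂ => 1 - Complex.exp (-w)) 0 z
  simpa [ph] using this

theorem ph_zero : ph 0 = 1 := by
  rw [ph, dslope_same]
  have h : HasDerivAt (fun w : ℂ => 1 - Complex.exp (-w)) (-(Complex.exp (-0) * -1)) 0 :=
    ((hasDerivAt_neg (0 : ℂ)).cexp).const_sub 1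
  rw [h.deriv]
  simp

theorem ph_ne {z : ℂ} (hz : |z.im| < 2 * Real.pi) : ph z ≠ 0 := by
  by_cases h0 : z = 0
  · rw [h0, ph_zero]
    exact one_ne_zero
  · intro h
    have h1 := ph_mul z
    rw [h, mul_zero, eq_comm, sub_eq_zero, eq_comm, Complex.exp_eq_one_iff] at h1
    obtain ⟨n, hn⟩ := h1
    have h2 : z.im = -(n * (2 * Real.pi)) := by
      have := congrArg Complex.im hn
      simp at this
      linarith
    have h3 : n = 0 := by
      by_contra hn0
      have h4 : (1 : ℝ) ≤ |(n : ℝ)| := by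
        have := Int.one_le_abs hn0
        exact_mod_cast this
      rw [h2, abs_neg, abs_mul, abs_of_pos (by positivity : (0 : ℝ) < 2 * Real.pi)] at hz
      nlinarith [Real.pi_pos]
    rw [h3] at hn
    simp at hn
    exact h0 hn

/-- `z² f(z)` -/
noncomputable def gg (a ω : ℝ) (z : ℂ) : ℂ :=
  Complex.exp (-((a : ℂ) * z)) * (ph z)⁻¹ * (ph ((ω : ℂ) * z))⁻¹ * (ω : ℂ)⁻¹

theorem gg_eq {a ω : ℝ} (hω : 0 < ω) {z : ℂ} (hz : 0 < z.re) : gg a ω z = z ^ 2 * ff a ω z := by
  have hz0 : z ≠ 0 := by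
    rintro rfl
    simp at hz
  have hω0 : (ω : ℂ) ≠ 0 := Complex.ofReal_ne_zero.2 hω.ne'
  rw [gg, ff, ← ph_mul z, ← ph_mul ((ω : ℂ) * z)]
  by_cases h1 : ph z = 0
  · rw [h1]; simp
  by_cases h2 : ph ((ω : ℂ) * z) = 0
  · rw [h2]; simp
  field_simp

theorem norm_one_sub {x : ℂ} {r : ℝ} (h : r ≤ x.re) : 1 - Real.exp (-r) ≤ ‖1 - Complex.exp (-x)‖ := by
  have h1 := norm_sub_norm_le (1 : ℂ) (Complex.exp (-x))
  rw [norm_one, Complex.norm_exp, Complex.neg_re] at h1
  have h2 : Real.exp (-x.re) ≤ Real.exp (-r) := Real.exp_le_exp.2 (by linarith)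
  linarith

theorem good (a ω : ℝ) (ha : 0 < a) (hω : 0 < ω) :
    ∃ C : ℝ, Good (gg a ω) (a / 2) C (1 / (1 + ω)) := by
  have hρ : 0 < 1 / (1 + ω) := by positivity
  have hρ1 : 1 / (1 + ω) ≤ 1 := by
    rw [div_le_one (by positivity)]; linarith
  have hρ2 : ω * (1 / (1 + ω)) ≤ 1 := by
    rw [mul_one_div, div_le_one (by positivity)]; linarith
  have hpi : (1 : ℝ) < 2 * Real.pi := by
    have := Real.pi_gt_three; linarith
  have hd : ∀ z : ℂ, |z.im| ≤ 1 / (1 + ω) → DifferentiableAt ℂ (gg a ω) z := by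
    intro z hz
    have h1 : ph z ≠ 0 := ph_ne (by linarith)
    have h2 : ph ((ω : ℂ) * z) ≠ 0 := by
      refine ph_ne ?_
      have : ((ω : ℂ) * z).im = ω * z.im := by simp
      rw [this, abs_mul, abs_of_pos hω]
      nlinarith
    have h3 : DifferentiableAt ℂ ph z := ph_diff z
    have h4 : DifferentiableAt ℂ (fun z : ℂ => ph ((ω : ℂ) * z)) z :=
      DifferentiableAt.comp (g := ph) (f := fun z : ℂ => (ω : ℂ) * z) z (ph_diff _)
        (by fun_prop)
    have h5 : DifferentiableAt ℂ (fun z : ℂ => Complex.exp (-((a : ℂ) * z))) z := by fun_prop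
    exact ((h5.mul (h3.inv h1)).mul (h4.inv h2)).mul_const _
  -- the compact part
  have hK : IsCompact (Icc (-(1 / (1 + ω))) 1 ×ℂ Icc (-(1 / (1 + ω))) (1 / (1 + ω))) :=
    isCompact_Icc.reProdIm isCompact_Icc
  obtain ⟨C0, hC0⟩ := hK.exists_bound_of_continuousOn (f := gg a ω) (fun z hz =>
    (hd z (abs_le.2 (Complex.mem_reProdIm.1 hz).2)).continuousAt.continuousWithinAt)
  set κ : ℝ := 1 - Real.exp (-ω) with hκ
  have hκ0 : 0 < κ := by
    have : Real.exp (-ω) < 1 := by
      rw [← Real.exp_zero]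
      exact Real.exp_lt_exp.2 (by linarith)
    rw [hκ]; linarith
  refine ⟨max (C0 * Real.exp (a / 2)) (128 / (κ * a ^ 2)), ⟨by positivity, hρ,
    le_max_of_le_right (by positivity), fun z _ hz => hd z hz, fun z hz1 hz2 => ?_⟩⟩
  rcases le_total z.re 1 with h1 | h1
  · have h2 := hC0 z (Complex.mem_reProdIm.2 ⟨⟨hz1, h1⟩, abs_le.1 hz2⟩)
    have h3 : 0 ≤ C0 := (norm_nonneg _).trans h2
    refine h2.trans ?_
    calc C0 ≤ C0 * Real.exp (a / 2) * Real.exp (-(a / 2) * z.re) := by
          rw [mul_assoc, ← Real.exp_add]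
          refine le_mul_of_one_le_right h3 (Real.one_le_exp ?_)
          nlinarith
      _ ≤ _ := mul_le_mul_of_nonneg_right (le_max_left _ _) (Real.exp_pos _).le
  · have hz0 : 0 < z.re := by linarith
    rw [gg_eq hω hz0, ff]
    have h2 : 1 / 2 ≤ ‖1 - Complex.exp (-z)‖ := by
      refine le_trans ?_ (norm_one_sub h1)
      have h3 : Real.exp (-1) ≤ 1 / 2 := by
        rw [Real.exp_neg, one_div]
        refine inv_anti₀ (by norm_num) ?_
        have := Real.add_one_le_exp (1 : ℝ)
        linarith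
      linarith
    have h3 : κ ≤ ‖1 - Complex.exp (-((ω : ℂ) * z))‖ := by
      refine norm_one_sub ?_
      have : ((ω : ℂ) * z).re = ω * z.re := by simp
      rw [this]
      nlinarith
    have h4 : ‖Complex.exp (-((a : ℂ) * z))‖ = Real.exp (-(a * z.re)) := by
      rw [Complex.norm_exp]
      simp
    have h5 : ‖z‖ ≤ 2 * z.re := by
      have h6 := Complex.norm_le_abs_re_add_abs_im z
      rw [abs_of_pos hz0] at h6
      linarith
    have h6 : z.re ^ 2 ≤ 16 / a ^ 2 * Real.exp (a / 2 * z.re) := by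
      have h7 : a / 4 * z.re ≤ Real.exp (a / 4 * z.re) := by
        have := Real.add_one_le_exp (a / 4 * z.re)
        linarith
      have h8 : (a / 4 * z.re) ^ 2 ≤ Real.exp (a / 2 * z.re) := by
        calc (a / 4 * z.re) ^ 2 ≤ Real.exp (a / 4 * z.re) ^ 2 :=
              pow_le_pow_left₀ (by positivity) h7 2
          _ = _ := by
              rw [← Real.exp_nat_mul]
              congr 1
              push_cast
              ring
      calc z.re ^ 2 = 16 / a ^ 2 * (a / 4 * z.re) ^ 2 := by field_simp; ring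
        _ ≤ _ := mul_le_mul_of_nonneg_left h8 (by positivity)
    rw [norm_mul, norm_pow, norm_div, norm_mul, h4]
    have h7 : 0 < 1 / 2 * κ := by positivity
    have h8 : 1 / 2 * κ ≤ ‖1 - Complex.exp (-z)‖ * ‖1 - Complex.exp (-((ω : ℂ) * z))‖ :=
      mul_le_mul h2 h3 hκ0.le (norm_nonneg _)
    calc ‖z‖ ^ 2 * (Real.exp (-(a * z.re)) /
          (‖1 - Complex.exp (-z)‖ * ‖1 - Complex.exp (-((ω : ℂ) * z))‖))
        ≤ (2 * z.re) ^ 2 * (Real.exp (-(a * z.re)) / (1 / 2 * κ)) := by
          refine mul_le_mul (pow_le_pow_left₀ (norm_nonneg _) h5 2)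
            (div_le_div_of_nonneg_left (Real.exp_pos _).le h7 h8) (by positivity) (by positivity)
      _ = 8 / κ * z.re ^ 2 * Real.exp (-(a * z.re)) := by field_simp; ring
      _ ≤ 8 / κ * (16 / a ^ 2 * Real.exp (a / 2 * z.re)) * Real.exp (-(a * z.re)) := by
          refine mul_le_mul_of_nonneg_right (mul_le_mul_of_nonneg_left h6 (by positivity))
            (Real.exp_pos _).le
      _ = 128 / (κ * a ^ 2) * (Real.exp (a / 2 * z.re) * Real.exp (-(a * z.re))) := by
          field_simp; ring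
      _ = 128 / (κ * a ^ 2) * Real.exp (-(a / 2) * z.re) := by
          rw [← Real.exp_add]
          congr 2
          ring
      _ ≤ _ := mul_le_mul_of_nonneg_right (le_max_right _ _) (Real.exp_pos _).le

theorem lam_pos {a ω : ℝ} (ha : 0 < a) (hω : 0 < ω) (m : ℕ × ℕ) : 0 < lam a ω m := by
  rw [lam]; positivity

/-- EXI -/
theorem t_EXI : S_EXI := by
  intro hG hS a ω ha hω
  obtain ⟨C, hC⟩ := good a ω ha hω
  refine ⟨fun s => lam' (gg a ω) (s - 2) * ((s - 1) * (s - 2))⁻¹, fun s h1 h2 => ?_, fun s hs => ?_⟩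
  · have h3 : DifferentiableAt ℂ (fun s : ℂ => lam' (gg a ω) (s - 2)) s :=
      DifferentiableAt.comp (g := lam' (gg a ω)) (f := fun s : ℂ => s - 2) s (hC.entire _)
        (by fun_prop)
    have h4 : DifferentiableAt ℂ (fun s : ℂ => (s - 1) * (s - 2)) s := by fun_prop
    exact h3.mul (h4.inv (mul_ne_zero (sub_ne_zero.2 h1) (sub_ne_zero.2 h2)))
  · have hs0 : 0 < s.re := by linarith
    have hs2 : 0 < (s - 2).re := by
      rw [Complex.sub_re]
      simp
      linarith
    have h1 := hasSum_mellin (a := fun _ : ℕ × ℕ => (1 : ℂ)) (p := lam a ω)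
      (F := fun t : ℝ => ff a ω t) (s := s) (fun m => Or.inr (lam_pos ha hω m)) hs0 (fun t ht => by
        have h2 := hG a ω ha hω (t : ℂ) (by simpa using ht)
        have h3 : (fun m : ℕ × ℕ => (1 : ℂ) * ((Real.exp (-lam a ω m * t) : ℝ) : ℂ)) =
            fun m : ℕ × ℕ => Complex.exp (-(((lam a ω m : ℝ) : ℂ) * t)) := by
          funext m
          rw [one_mul]
          push_cast
          congr 1
          ring
        rw [h3]
        exact h2) (by
        have h2 := hS a ω ha hω s.re hs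
        refine h2.congr fun m => ?_
        rw [norm_one, one_div, Real.rpow_neg (lam_pos ha hω m).le])
    have h2 : mellin (fun t : ℝ => ff a ω t) s = mellin (fun y : ℝ => gg a ω y) (s - 2) := by
      rw [mellin, mellin]
      refine setIntegral_congr_fun measurableSet_Ioi fun t ht => ?_
      have ht0 : (t : ℂ) ≠ 0 := Complex.ofReal_ne_zero.2 (ne_of_gt ht)
      show (t : ℂ) ^ (s - 1) • ff a ω t = (t : ℂ) ^ (s - 2 - 1) • gg a ω t
      rw [gg_eq hω (by simpa using ht), smul_eq_mul, smul_eq_mul, ← mul_assoc,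
        ← Complex.cpow_natCast, ← Complex.cpow_add _ _ ht0]
      congr 2
      push_cast
      ring
    have h3 : Complex.Gamma s = (s - 1) * (s - 2) * Complex.Gamma (s - 2) := by
      have hne1 : s - 2 ≠ 0 := by
        intro h0
        rw [h0] at hs2
        simp at hs2
      have hne2 : s - 1 ≠ 0 := by
        intro h0
        have : s = 1 := by linear_combination h0
        rw [this] at hs
        norm_num at hs
      have h4 := Complex.Gamma_add_one (s - 2) hne1
      have h5 := Complex.Gamma_add_one (s - 1) hne2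
      rw [show s - 2 + 1 = s - 1 by ring] at h4
      rw [show s - 1 + 1 = s by ring, h4] at h5
      rw [h5]
      ring
    have hΓ : Complex.Gamma s ≠ 0 := Complex.Gamma_ne_zero_of_re_pos hs0
    have h4 := h1.mul_right (Complex.Gamma s)⁻¹
    rw [h2] at h4
    have h5 : lam' (gg a ω) (s - 2) * ((s - 1) * (s - 2))⁻¹ =
        mellin (fun y : ℝ => gg a ω y) (s - 2) * (Complex.Gamma s)⁻¹ := by
      rw [hC.lam_zero hs2, h3, mul_inv ((s - 1) * (s - 2))]
      ring
    have h6 : (fun i : ℕ × ℕ => Complex.Gamma s * 1 / ((lam a ω i : ℝ) : ℂ) ^ s *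
        (Complex.Gamma s)⁻¹) = fun m : ℕ × ℕ => ((lam a ω m : ℝ) : ℂ) ^ (-s) := by
      funext m
      rw [Complex.cpow_neg, mul_one, div_mul_eq_mul_div, mul_inv_cancel₀ hΓ, one_div]
    rw [h6] at h4
    show HasSum _ (lam' (gg a ω) (s - 2) * ((s - 1) * (s - 2))⁻¹)
    rw [h5]
    exact h4

end Pool.Agent.L0h68.BZ
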